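import Pool.Agent.HW484.V4

/-!
# A failure of meromorphic continuation propagates, for the L-functions of all projective varieties

If `L(H^i(X), s)` had no meromorphic continuation for one smooth projective variety `X` over one number
field `K` (for instance `K = ℚ`), then neither would `L(H^i(X_F), s)` for infinitely many finite
extensions `F` of `K`.  A variety over `F` is a variety over `ℚ` by restriction of the base, with the
same `L`-functions.

`IsFrobenius` and `LFun` are defined in `Pool/Agent/TH958/BV/Defs.lean`.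
-/

set_option autoImplicit false

namespace Pool.Agent.Results.MP_039d94_nt.FailurePropagates

open NumberField IsDedekindDomain Filter Polynomial
open Pool.Agent.TH958.BV (IsFrobenius LFun)

variable {n : ℕ}

/-- The polynomials `B v` are the Euler factors of `L(H^i(X), s)`, where `X` is the projective variety
of dimension `d` with the given equations and `N` is the `i`-th Betti number: `B_v(z) = ∏ (1 - α_j z)`
with the eigenvalues `α_j` of Frobenius for almost all primes `v` of `K`.  At the other primes `B v` is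
an arbitrary polynomial, but the factor `B_v(q_v^{-s})⁻¹` has no pole with `Re s > i/2 + 1`. -/
def IsEulerSystem {K : Type} [Field K] [NumberField K] (X : Set (MvPolynomial (Fin n) (𝓞 K)))
    (d i N : ℕ) (B : HeightOneSpectrum (𝓞 K) → ℂ[X]) : Prop :=
  (∀ᶠ v in cofinite, ∃ α : Fin N → ℂ, IsFrobenius X d i v α ∧
    ∀ z : ℂ, (B v).eval z = ∏ j, (1 - α j * z)) ∧
  ∀ v (z : ℂ), ‖z‖ < (Ideal.absNorm v.asIdeal : ℝ) ^ (-((i : ℝ) / 2 + 1)) → (B v).eval z ≠ 0

/-- The `m`-th power of `L(H^i(X), s)` has a meromorphic continuation to `Ω`. -/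
def PowerContinues (m : ℤ) {K : Type} [Field K] [NumberField K]
    (X : Set (MvPolynomial (Fin n) (𝓞 K))) (d i N : ℕ) (Ω : Set ℂ) : Prop :=
  ∀ B : HeightOneSpectrum (𝓞 K) → ℂ[X], IsEulerSystem X d i N B →
    ∃ f : ℂ → ℂ, MeromorphicOn f Ω ∧ ∀ s : ℂ, (i : ℝ) / 2 + 1 < s.re → f s = LFun B s ^ m

/-- `L(H^i(X), s)` has a meromorphic continuation to `Ω`. -/
def Continues {K : Type} [Field K] [NumberField K]
    (X : Set (MvPolynomial (Fin n) (𝓞 K))) (d i N : ℕ) (Ω : Set ℂ) : Prop :=
  ∀ B : HeightOneSpectrum (𝓞 K) → ℂ[X], IsEulerSystem X d i N B →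
    ∃ f : ℂ → ℂ, MeromorphicOn f Ω ∧ ∀ s : ℂ, (i : ℝ) / 2 + 1 < s.re → f s = LFun B s

/-- The equations of `X` as equations over the ring of integers of the extension `F` of `K`. -/
noncomputable def baseChange {K : Type} [Field K] [NumberField K] (F : Type) [Field F]
    [NumberField F] [Algebra K F] (X : Set (MvPolynomial (Fin n) (𝓞 K))) :
    Set (MvPolynomial (Fin n) (𝓞 F)) :=
  MvPolynomial.map (algebraMap (𝓞 K) (𝓞 F)) '' X

/-- The group `G` has a cyclic normal subgroup `C` such that `G ⧸ C` is an `ℓ`-group. -/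
def IsQuasiElementary (ℓ : ℕ) (G : Type) [Group G] : Prop :=
  ∃ C : Subgroup G, ∃ _ : C.Normal, IsCyclic C ∧ IsPGroup ℓ (G ⧸ C)

/-- Every finite Galois extension `M` of `K` has an intermediate field `F` such that `Gal(M / F)` has
a cyclic normal subgroup whose quotient is an `ℓ`-group and such that `L(H^i(X_F), s)` has no
meromorphic continuation to `Ω`. -/
def FailsInQuasiElementaryLayers (ℓ : ℕ) {K : Type} [Field K] [NumberField K]
    (X : Set (MvPolynomial (Fin n) (𝓞 K))) (d i N : ℕ) (Ω : Set ℂ) : Prop :=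
  ∀ (M : Type) [Field M] [NumberField M] [Algebra K M] [IsGalois K M],
    ∃ F : IntermediateField K M, IsQuasiElementary ℓ (M ≃ₐ[F] M) ∧
      ¬ Continues (baseChange F X) d i N Ω

/-- Every finite Galois extension `M` of `K` has an intermediate field `F` such that `Gal(M / F)` is
cyclic and such that `L(H^i(X_F), s)` has no meromorphic continuation to `Ω`. -/
def FailsInCyclicLayers {K : Type} [Field K] [NumberField K]
    (X : Set (MvPolynomial (Fin n) (𝓞 K))) (d i N : ℕ) (Ω : Set ℂ) : Prop :=
  ∀ (M : Type) [Field M] [NumberField M] [Algebra K M] [IsGalois K M],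
    ∃ F : IntermediateField K M, IsCyclic (M ≃ₐ[F] M) ∧ ¬ Continues (baseChange F X) d i N Ω

/-- `F` is a Galois extension of `K` of degree `p` or `p ^ 2`, with a Galois group of exponent `p`,
which is contained in a cyclotomic extension of `K`. -/
def IsSmall {K : Type} [Field K] (p : ℕ) (F : IntermediateField K (AlgebraicClosure K)) : Prop :=
  IsGalois K F ∧ (Module.finrank K F = p ∨ Module.finrank K F = p ^ 2) ∧
    (∀ σ : F ≃ₐ[K] F, σ ^ p = 1) ∧
    ∃ (n : ℕ) (ζ : AlgebraicClosure K), 0 < n ∧ ζ ^ n = 1 ∧ F ≤ IntermediateField.adjoin K {ζ}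

/-- `L(H^i(X_F), s)` has no meromorphic continuation to `Ω`. -/
def Fails {K : Type} [Field K] [NumberField K] (X : Set (MvPolynomial (Fin n) (𝓞 K))) (d i N : ℕ)
    (Ω : Set ℂ) (F : IntermediateField K (AlgebraicClosure K)) : Prop :=
  ∃ _ : NumberField F, ¬ Continues (baseChange F X) d i N Ω

/-- The functions `L(H^i(X), s)` of all varieties over all number fields of degree greater than `N₀`
have meromorphic continuations to `Ω`. -/
def ContinuesAbove (N₀ : ℕ) (Ω : Set ℂ) : Prop :=
  ∀ (F : Type) [Field F] [NumberField F], N₀ < Module.finrank ℚ F →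
    ∀ (n d i N : ℕ) (X : Set (MvPolynomial (Fin n) (𝓞 F))), i ≤ 2 * d → Continues X d i N Ω

open Pool.Agent.HW484

section bridge
variable {K : Type} [Field K] [NumberField K]

lemma cont_iff {F : Type} [Field F] [NumberField F] [Algebra K F]
    {X : Set (MvPolynomial (Fin n) (𝓞 K))} {d i N : ℕ} {hi : i ≤ 2 * d}
    {hX : {v | ¬ V.GoodP X d i N v}.Finite} {Ω : Set ℂ} :
    (V.sysX X d i N hi hX).Cont F Ω ↔ Continues (baseChange F X) d i N Ω := by
  constructor
  · intro h B hB
    exact h (V.factor B) ⟨B, hB, rfl⟩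
  · rintro h g ⟨B, hB, rfl⟩
    exact h B hB

lemma image_self (X : Set (MvPolynomial (Fin n) (𝓞 K))) (f : 𝓞 K →+* 𝓞 K) (hf : ∀ x, f x = x) :
    MvPolynomial.map f '' X = X := by
  have h1 : f = RingHom.id _ := RingHom.ext hf
  subst h1
  have h2 : ∀ x : MvPolynomial (Fin n) (𝓞 K), MvPolynomial.map (RingHom.id (𝓞 K)) x = x :=
    fun x => MvPolynomial.map_id x
  ext x
  constructor
  · rintro ⟨y, hy, rfl⟩
    rw [h2]
    exact hy
  · intro hx
    exact ⟨x, hx, h2 x⟩

lemma baseChange_self (X : Set (MvPolynomial (Fin n) (𝓞 K))) : baseChange K X = X :=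
  image_self X _ fun x => rfl

end bridge

theorem main (K : Type) [Field K] [NumberField K] (d i N : ℕ)
    (X : Set (MvPolynomial (Fin n) (𝓞 K))) (Ω : Set ℂ) (hi : i ≤ 2 * d)
    (hB : ∃ B, IsEulerSystem X d i N B) :
    ∃ e : ℕ, (Continues X d i N Ω ↔ e = 1) ∧
      (∀ m : ℤ, PowerContinues m X d i N Ω ↔ (e : ℤ) ∣ m) ∧
      (∀ ℓ : ℕ, ℓ.Prime → ℓ ∣ e → FailsInQuasiElementaryLayers ℓ X d i N Ω) ∧
      (e = 0 → FailsInCyclicLayers X d i N Ω) ∧
      ∀ p : ℕ, p.Prime → (∀ k : ℕ, e ≠ p ^ k) →
        ∀ B : IntermediateField K (AlgebraicClosure K), FiniteDimensional K B →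
          ∃ F : IntermediateField K (AlgebraicClosure K), F ⊓ B = ⊥ ∧ IsSmall p F ∧
            Fails X d i N Ω F := by
  obtain ⟨B₀, hB₀⟩ := hB
  have hX : {v | ¬ V.GoodP X d i N v}.Finite := V.finite_not_good hB₀
  set 𝒮 := V.sysX X d i N hi hX with h𝒮
  have hS : ∀ B, IsEulerSystem X d i N B → 𝒮.S K (V.factor B) := by
    intro B hB
    refine ⟨B, ?_, rfl⟩
    have h1 : V.bc K X = X := baseChange_self X
    rw [h1]
    exact hB
  have hg := hS B₀ hB₀
  obtain ⟨e, he⟩ := V.exists_exponentV (𝒮.ed K _ hg) Ω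
  have hP : ∀ m : ℤ, PowerContinues m X d i N Ω ↔ (e : ℤ) ∣ m := by
    intro m
    rw [← he]
    exact ⟨fun h => h B₀ hB₀, fun h B hB => V.pwg_indep hg (hS B hB) h⟩
  have hC : Continues X d i N Ω ↔ e = 1 := by
    have h1 : Continues X d i N Ω ↔ PowerContinues 1 X d i N Ω := by
      constructor
      · intro h B hB
        obtain ⟨f, h1, h2⟩ := h B hB
        exact ⟨f, h1, fun s hs => by rw [h2 s hs, zpow_one]⟩
      · intro h B hB
        obtain ⟨f, h1, h2⟩ := h B hB
        exact ⟨f, h1, fun s hs => by rw [h2 s hs, zpow_one]⟩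
    rw [h1, hP 1]
    constructor
    · intro h
      exact_mod_cast Int.eq_one_of_dvd_one (by positivity) h
    · rintro rfl
      exact dvd_rfl
  refine ⟨e, hC, hP, ?_, ?_, ?_⟩
  · intro ℓ hℓ hdvd M _ _ _ _
    have hD : ∀ m : ℤ, V.PwG ((i : ℝ) / 2 + 1) (V.factor B₀) Ω m → (ℓ : ℤ) ∣ m := fun m hm =>
      (Int.natCast_dvd_natCast.2 hdvd).trans ((he m).1 hm)
    obtain ⟨F, h1, h2⟩ := V.layersV hg hℓ hD M
    exact ⟨F, h1, fun h => h2 (cont_iff.2 h)⟩
  · intro h0 M _ _ _ _
    have hD : ∀ m : ℤ, m ≠ 0 → ¬ V.PwG ((i : ℝ) / 2 + 1) (V.factor B₀) Ω m := by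
      intro m hm h
      rw [he m, h0] at h
      exact hm (zero_dvd_iff.1 h)
    obtain ⟨F, h1, h2⟩ := V.cyclic_layersV hg hD M
    exact ⟨F, h1, fun h => h2 (cont_iff.2 h)⟩
  · intro p hp hk B hB
    obtain ⟨ℓ, hℓ, hne, hdvd⟩ := exists_other hp hk
    have hD : ∀ m : ℤ, V.PwG ((i : ℝ) / 2 + 1) (V.factor B₀) Ω m → (ℓ : ℤ) ∣ m := fun m hm =>
      (Int.natCast_dvd_natCast.2 hdvd).trans ((he m).1 hm)
    obtain ⟨F, h1, h2, h3, h4, h5, hn, h6⟩ := V.disjoint_extV hg hℓ hD hp hne B
    exact ⟨F, h1, ⟨h2, h3, h4, h5⟩, hn, fun h => h6 (cont_iff.2 h)⟩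

theorem large (N₀ : ℕ) (Ω : Set ℂ) (h : ContinuesAbove N₀ Ω)
    (K : Type) [Field K] [NumberField K] (d i N : ℕ)
    (X : Set (MvPolynomial (Fin n) (𝓞 K))) (hi : i ≤ 2 * d) : Continues X d i N Ω := by
  by_cases hB : ∃ B, IsEulerSystem X d i N B
  · obtain ⟨e, h1, -, -, -, h2⟩ := main K d i N X Ω hi hB
    by_contra hcon
    have hd1 : e ≠ 1 := fun h => hcon (h1.2 h)
    obtain ⟨p, hp1, hp2⟩ := Nat.exists_infinite_primes (max N₀ e + 1)
    have hpN : N₀ < p := by omega
    have hk : ∀ k : ℕ, e ≠ p ^ k := by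
      intro k hk
      rcases Nat.eq_zero_or_pos k with h0 | h0
      · rw [h0, pow_zero] at hk
        exact hd1 hk
      · have : p ≤ p ^ k := Nat.le_self_pow h0.ne' p
        omega
    obtain ⟨F, -, ⟨h3, h4, -, -⟩, hn, h5⟩ := h2 p hp2 hk ⊥ inferInstance
    refine h5 (h F ?_ n d i N (baseChange F X) hi)
    have h6 : Module.finrank ℚ K * Module.finrank K F = Module.finrank ℚ F :=
      Module.finrank_mul_finrank ℚ K F
    have h7 : 0 < Module.finrank ℚ K := Module.finrank_pos
    have h8 : p ≤ Module.finrank K F := by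
      rcases h4 with h4 | h4
      · exact h4.ge
      · rw [h4]
        exact Nat.le_self_pow (by norm_num) p
    rw [← h6]
    calc N₀ < p := hpN
      _ ≤ Module.finrank K F := h8
      _ ≤ Module.finrank ℚ K * Module.finrank K F := Nat.le_mul_of_pos_left _ h7
  · intro B hB'
    exact (hB ⟨B, hB'⟩).elim

/-- **The exponent of meromorphy.**  Let `X` be a projective variety of dimension `d` over a number
field `K`, given by homogeneous equations with integral coefficients, let `i ≤ 2 d`, and suppose that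
`L(H^i(X), s)` has Euler factors of the expected form, with `N` eigenvalues, at almost all primes
(which is the case if `X` is smooth, by the theorem of Deligne).  Let `Ω` be a set of complex numbers,
for instance the plane.  There is a number `e ≥ 0` such that `L(H^i(X), s) ^ m` has a meromorphic
continuation to `Ω` exactly for the multiples `m` of `e`; so `L(H^i(X), s)` has one exactly if
`e = 1`.  Moreover the following is true.

* For every prime divisor `ℓ` of `e`, every finite Galois extension `M` of `K` has an intermediate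
field `F` such that `Gal(M / F)` has a cyclic normal subgroup whose quotient is an `ℓ`-group and such
that `L(H^i(X_F), s)` has no meromorphic continuation to `Ω`.
* If `e = 0`, then every finite Galois extension `M` of `K` has an intermediate field `F` such that
`Gal(M / F)` is cyclic and such that `L(H^i(X_F), s)` has no meromorphic continuation to `Ω`.
* For every prime number `p`, except if `e` is a power of `p`, and for every finite extension `B` of
`K` there is a Galois extension `F` of `K` with `F ∩ B = K` whose Galois group has order `p` or `p ^ 2`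
and exponent `p`, which is contained in a cyclotomic extension of `K`, and for which
`L(H^i(X_F), s)` has no meromorphic continuation to `Ω`.

In particular (last clause): if the functions `L(H^i(X), s)` of all varieties over all number fields of
degree greater than some `N₀` have meromorphic continuations to `Ω`, then so have those of all
varieties over all number fields. -/
theorem result :
    (∀ (K : Type) [Field K] [NumberField K] (n d i N : ℕ)
      (X : Set (MvPolynomial (Fin n) (𝓞 K))) (Ω : Set ℂ), i ≤ 2 * d →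
      (∃ B, IsEulerSystem X d i N B) →
      ∃ e : ℕ, (Continues X d i N Ω ↔ e = 1) ∧
        (∀ m : ℤ, PowerContinues m X d i N Ω ↔ (e : ℤ) ∣ m) ∧
        (∀ ℓ : ℕ, ℓ.Prime → ℓ ∣ e → FailsInQuasiElementaryLayers ℓ X d i N Ω) ∧
        (e = 0 → FailsInCyclicLayers X d i N Ω) ∧
        ∀ p : ℕ, p.Prime → (∀ k : ℕ, e ≠ p ^ k) →
          ∀ B : IntermediateField K (AlgebraicClosure K), FiniteDimensional K B →
            ∃ F : IntermediateField K (AlgebraicClosure K), F ⊓ B = ⊥ ∧ IsSmall p F ∧
              Fails X d i N Ω F) ∧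
    ∀ (N₀ : ℕ) (Ω : Set ℂ), ContinuesAbove N₀ Ω →
      ∀ (K : Type) [Field K] [NumberField K] (n d i N : ℕ)
        (X : Set (MvPolynomial (Fin n) (𝓞 K))), i ≤ 2 * d → Continues X d i N Ω :=
  ⟨fun K _ _ _ d i N X Ω hi hB => main K d i N X Ω hi hB,
    fun N₀ Ω h K _ _ _ d i N X hi => large N₀ Ω h K d i N X hi⟩

end Pool.Agent.Results.MP_039d94_nt.FailurePropagates
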