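import Pool.Agent.R409.EV.Prod
import Pool.Agent.H789.HW.Abs

/-!
# Multiplicative relations between the boundary values of the L-functions of projective varieties

`X_0, X_1, X_2, ...` are smooth projective varieties over number fields `K_0, K_1, K_2, ...` (for
example all equal to `ℚ`), `i_j ≤ 2 dim X_j`, and `α_j` are real numbers.  The Euler products
`L_j(s) = L(H^(i_j)(X_j), s + i_j/2 + i α_j)` converge for `Re s > 1`, and a continuation across any
point of the edge `Re s = 1` is not known in general.

The theorem says that for almost every real `τ` the following holds for all integer vectors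
`m = (m_j)` with finitely many entries `≠ 0` simultaneously: either the product of the `L_j ^ m_j`
continues to a holomorphic function without zeros in a neighbourhood of `1 + iτ`, or the product of the
boundary values `l_j(τ) ^ m_j` is transcendental, even over the field generated by the values at
`1 + iτ` of any countable set of (locally) analytic functions given in advance.
-/

set_option autoImplicit false

namespace Pool.Agent.Results.MP_039d94_nt.MultiplicativeRelations

open NumberField IsDedekindDomain MeasureTheory Filter Topology Polynomial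
open Pool.Agent.TH958.BV (IsEulerSystem LFun)

/-- The point `1 + iτ` of the edge. -/
noncomputable def edge (τ : ℝ) : ℂ := 1 + τ * Complex.I

/-- The angle `|s - (1 + iτ)| ≤ c (Re s - 1)` in the half-plane `Re s > 1`. -/
def sector (τ c : ℝ) : Set ℂ :=
  {s : ℂ | 1 < s.re ∧ ‖s - edge τ‖ ≤ c * (s.re - 1)}

/-- The function `f`, on the half-plane `Re s > 1`, continues to a neighbourhood of `1 + iτ` as a
holomorphic function without zeros: near this point it agrees, for `Re s > 1`, with a function which
is analytic and not zero there. -/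
def Continues (f : ℂ → ℂ) (τ : ℝ) : Prop :=
  ∃ φ : ℂ → ℂ, AnalyticAt ℂ φ (edge τ) ∧ φ (edge τ) ≠ 0 ∧
    ∀ᶠ s in 𝓝 (edge τ), 1 < s.re → f s = φ s

/-- The values at `s` of the functions in `A` which are analytic at `s`. -/
def values (A : Set (ℂ → ℂ)) (s : ℂ) : Set ℂ :=
  {z : ℂ | ∃ g ∈ A, AnalyticAt ℂ g s ∧ g s = z}

/-- `L(s + i/2 + i α)`, where `L` is the Euler product with the factors `B_v`. -/
noncomputable def shifted {K : Type} [Field K] [NumberField K]
    (B : HeightOneSpectrum (𝓞 K) → ℂ[X]) (i : ℕ) (α : ℝ) (s : ℂ) : ℂ :=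
  LFun B (s + (i : ℂ) / 2 + α * Complex.I)

end Pool.Agent.Results.MP_039d94_nt.MultiplicativeRelations

open Pool.Agent.Results.MP_039d94_nt.MultiplicativeRelations in
open NumberField IsDedekindDomain MeasureTheory Filter Topology Polynomial in
open Pool.Agent.TH958.BV (IsEulerSystem LFun) in
/-- Let `X j`, `j = 0, 1, 2, ...`, be smooth projective varieties of dimension `d j` over number fields
`K j`, let `i j ≤ 2 (d j)`, let `B j` be the Euler factors of `L(H^(i j)(X j), s)`, with the factors at
the finitely many bad primes arbitrary polynomials `≠ 0` with algebraic coefficients, and `α j` real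
numbers.  There are functions `l j` on the real line such that

* `L(H^(i j)(X j), s + i_j/2 + i α_j)` tends to `l_j(τ) ≠ 0` as `s` tends to `1 + iτ` in any angle in
  the half-plane `Re s > 1`, for all real `τ` outside a set of Hausdorff dimension `0`;
* for every countable set `A` of functions, for almost every real `τ`, for all integer vectors `m` with
  finitely many entries `≠ 0`, either the product of the functions
  `L(H^(i_j)(X_j), s + i_j/2 + i α_j) ^ m_j` continues to a holomorphic function without zeros in a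
  neighbourhood of `1 + iτ`, or the product of the numbers `l_j(τ) ^ m_j` is transcendental over the
  field generated over `ℚ` by the values `g(1 + iτ)` of all `g` in `A` which are analytic there. -/
theorem Pool.Agent.Results.MP_039d94_nt.MultiplicativeRelations.result
    (K : ℕ → Type) [∀ j, Field (K j)] [∀ j, NumberField (K j)] (n : ℕ → ℕ)
    (X : ∀ j, Set (MvPolynomial (Fin (n j)) (𝓞 (K j)))) (d i N : ℕ → ℕ)
    (B : ∀ j, HeightOneSpectrum (𝓞 (K j)) → ℂ[X])
    (hB : ∀ j, IsEulerSystem (X j) (d j) (i j) (N j) (B j)) (α : ℕ → ℝ) :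
    ∃ l : ℕ → ℝ → ℂ,
      (∀ j, ∃ Z : Set ℝ, dimH Z = 0 ∧ ∀ τ : ℝ, τ ∉ Z → l j τ ≠ 0 ∧ ∀ c : ℝ,
        Tendsto (shifted (B j) (i j) (α j)) (𝓝[sector τ c] (edge τ)) (𝓝 (l j τ))) ∧
      ∀ A : Set (ℂ → ℂ), A.Countable → ∀ᵐ τ : ℝ, ∀ m : ℕ →₀ ℤ,
        Continues (fun s => m.prod fun j k => shifted (B j) (i j) (α j) s ^ k) τ ∨
        Transcendental (IntermediateField.adjoin ℚ (values A (edge τ)))
          (m.prod fun j k => l j τ ^ k) := by
  have hed : ∀ τ : ℝ, edge τ = Pool.Agent.TH345.ET.ep τ := fun _ => rfl
  set b₀ : ℕ → Pool.Agent.TH339.MP.PP → ℂ := fun j =>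
    Pool.Agent.TH339.MP.bb (Pool.Agent.R409.EV.be (X j) (d j) (i j) (N j) (B j)) with hb₀def
  have hb₀ := fun j => Pool.Agent.TH339.MP.norm_bb
    (Pool.Agent.R409.EV.norm_be (X j) (d j) (i j) (N j) (B j))
  set b : ℕ → Pool.Agent.TH339.MP.PP → ℂ := fun j => Pool.Agent.H789.HW.sh (b₀ j) (α j) with hbdef
  have hb : ∀ j x, ‖b j x‖ ≤ ((Module.finrank ℚ (K j) : ℝ) * (N j : ℝ)) / (x.2 + 1 : ℕ) := by
    intro j x
    rw [hbdef]
    simp only [Pool.Agent.H789.HW.norm_sh]
    exact hb₀ j x
  set D : ℕ → ℂ → ℂ := fun j s => Pool.Agent.R409.EV.DD (hB j) (s + α j * Complex.I) with hDdef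
  have hre : ∀ (s : ℂ) (a : ℝ), (s + a * Complex.I).re = s.re := by
    intro s a
    simp
  have hDan : ∀ j s, AnalyticAt ℂ (D j) s := by
    intro j s
    exact AnalyticAt.fun_comp (g := Pool.Agent.R409.EV.DD (hB j))
      (f := fun s : ℂ => s + α j * Complex.I) (Pool.Agent.R409.EV.DD_analytic (hB j) _)
      (analyticAt_id.add analyticAt_const)
  have hDc : ∀ j, {τ : ℝ | D j (edge τ) = 0}.Countable := by
    intro j
    refine ((Pool.Agent.R409.EV.DD_countable (hB j)).preimage
      (f := fun τ : ℝ => edge τ + α j * Complex.I) ?_)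
    intro τ τ' h
    have h1 := congrArg Complex.im h
    simpa [edge] using h1
  have hL : ∀ j (s : ℂ), 1 < s.re → shifted (B j) (i j) (α j) s =
      (D j s)⁻¹ * Complex.exp (Pool.Agent.TH339.MP.FF (b j) s) := by
    intro j s hs
    have h1 := Pool.Agent.R409.EV.LFun_eq (hB j) (s := s + α j * Complex.I)
      (by rw [hre]; exact hs)
    unfold shifted
    rw [show s + (i j : ℂ) / 2 + α j * Complex.I = s + α j * Complex.I + (i j : ℂ) / 2 by ring, h1]
    simp only [hbdef, hDdef, hb₀def, Pool.Agent.H789.HW.FF_sh]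
  refine ⟨fun j τ => (D j (edge τ))⁻¹ * Complex.exp (Pool.Agent.TH339.MP.bl (b j) τ), ?_, ?_⟩
  · intro j
    refine ⟨Pool.Agent.W350.Edge.divSet (Pool.Agent.TH339.MP.ap (b j)) ∪
      {τ : ℝ | D j (edge τ) = 0}, ?_, fun τ hτ => ?_⟩
    · rw [dimH_union, (Pool.Agent.TH339.MP.boundary (hb j)).2.1, (hDc j).dimH_zero, max_self]
    · rw [Set.mem_union, not_or] at hτ
      obtain ⟨hτ1, hτ2⟩ := hτ
      have hne : D j (edge τ) ≠ 0 := hτ2
      refine ⟨mul_ne_zero (inv_ne_zero hne) (Complex.exp_ne_zero _), fun c => ?_⟩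
      have h5 := (Complex.continuous_exp.tendsto _).comp
        (Pool.Agent.TH339.MP.bl_angle (hb j) hτ1 c)
      have h6 : Tendsto (fun s : ℂ => s - edge τ) (𝓝[sector τ c] (edge τ))
          (𝓝[{z : ℂ | 0 < z.re ∧ ‖z‖ ≤ c * z.re}] 0) := by
        rw [tendsto_nhdsWithin_iff]
        constructor
        · have h7 : Tendsto (fun s : ℂ => s - edge τ) (𝓝 (edge τ)) (𝓝 (edge τ - edge τ)) :=
            (continuous_id.sub continuous_const).tendsto _
          rw [sub_self] at h7
          exact h7.mono_left nhdsWithin_le_nhds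
        · filter_upwards [self_mem_nhdsWithin] with s hs
          have hre : (s - edge τ).re = s.re - 1 := by
            unfold edge
            simp
          refine ⟨?_, ?_⟩
          · rw [hre]
            linarith [hs.1]
          · rw [hre]
            exact hs.2
      have h7 : Tendsto (fun s : ℂ => (D j s)⁻¹) (𝓝[sector τ c] (edge τ))
          (𝓝 (D j (edge τ))⁻¹) :=
        (((hDan j (edge τ)).continuousAt.tendsto).inv₀ hne).mono_left nhdsWithin_le_nhds
      refine (h7.mul (h5.comp h6)).congr' ?_
      filter_upwards [self_mem_nhdsWithin] with s hs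
      rw [hL j s hs.1]
      simp only [Function.comp_apply]
      congr 3
      unfold edge
      ring
  · intro A hA
    set A' : Set (ℂ → ℂ) := A ∪ Set.range D with hA'
    have h1 := Pool.Agent.H789.HW.ae_mult (h := fun _ _ => 1) hb
      (fun _ _ => analyticAt_const) (fun _ _ => one_ne_zero)
      (A := A') (hA.union (Set.countable_range _))
    have h2 : ∀ᵐ τ : ℝ, ∀ j, D j (edge τ) ≠ 0 := by
      rw [ae_all_iff]
      intro j
      exact measure_eq_zero_iff_ae_notMem.1 ((hDc j).measure_zero (volume : Measure ℝ))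
    filter_upwards [h1, h2] with τ hτ hne m
    have hR : (m.prod fun j k => ((D j (edge τ))⁻¹ *
        Complex.exp (Pool.Agent.TH339.MP.bl (b j) τ)) ^ k) =
        (∏ j ∈ m.support, ((D j (edge τ))⁻¹) ^ (m j)) *
          m.prod fun j k => Pool.Agent.TH345.ET.bv (b j) (fun _ => 1) τ ^ k := by
      unfold Finsupp.prod Pool.Agent.TH345.ET.bv
      rw [← Finset.prod_mul_distrib]
      refine Finset.prod_congr rfl fun j _ => ?_
      beta_reduce
      rw [one_mul, mul_zpow]
    have hR0 : (∏ j ∈ m.support, ((D j (edge τ))⁻¹) ^ (m j)) ≠ 0 :=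
      Finset.prod_ne_zero_iff.2 fun j _ => zpow_ne_zero _ (inv_ne_zero (hne j))
    rcases hτ m with hτ | hτ
    · left
      obtain ⟨φ, hφ, hval, hev⟩ := hτ
      refine ⟨fun s => (∏ j ∈ m.support, ((D j s)⁻¹) ^ (m j)) * φ s, ?_, ?_, ?_⟩
      · refine AnalyticAt.fun_mul (Finset.analyticAt_fun_prod _ fun j _ => ?_) hφ
        exact ((hDan j _).fun_inv (hne j)).fun_zpow (inv_ne_zero (hne j))
      · refine mul_ne_zero hR0 ?_
        rw [hed, hval]
        unfold Finsupp.prod
        refine Finset.prod_ne_zero_iff.2 fun j _ => zpow_ne_zero _ ?_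
        exact mul_ne_zero one_ne_zero (Complex.exp_ne_zero _)
      · rw [hed]
        filter_upwards [hev] with s hs hs1
        rw [← hs hs1]
        unfold Finsupp.prod
        rw [← Finset.prod_mul_distrib]
        refine Finset.prod_congr rfl fun j _ => ?_
        beta_reduce
        rw [hL j s hs1, one_mul, mul_zpow]
    · right
      intro halg
      apply hτ
      have hle : IntermediateField.adjoin ℚ (values A (edge τ)) ≤
          IntermediateField.adjoin ℚ (Pool.Agent.TH345.ET.vals A'
            (Pool.Agent.TH345.ET.ep τ)) := by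
        refine IntermediateField.adjoin.mono _ _ _ ?_
        rintro z ⟨g, hg, hga, rfl⟩
        exact ⟨g, Or.inl hg, hga, rfl⟩
      have h3 : IsAlgebraic (IntermediateField.adjoin ℚ (Pool.Agent.TH345.ET.vals A'
            (Pool.Agent.TH345.ET.ep τ))) (m.prod fun j k => ((D j (edge τ))⁻¹ *
              Complex.exp (Pool.Agent.TH339.MP.bl (b j) τ)) ^ k) := by
        obtain ⟨P, hP, hPx⟩ := halg
        refine ⟨P.map (IntermediateField.inclusion hle).toRingHom, ?_, ?_⟩
        · rw [Polynomial.map_ne_zero_iff (IntermediateField.inclusion hle).toRingHom.injective]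
          exact hP
        · rw [Polynomial.aeval_def, Polynomial.eval₂_map]
          rw [Polynomial.aeval_def] at hPx
          exact hPx
      have hmem : (∏ j ∈ m.support, ((D j (edge τ))⁻¹) ^ (m j))⁻¹ ∈
          IntermediateField.adjoin ℚ (Pool.Agent.TH345.ET.vals A'
            (Pool.Agent.TH345.ET.ep τ)) := by
        refine inv_mem (prod_mem fun j _ => zpow_mem (inv_mem ?_) _)
        exact IntermediateField.subset_adjoin _ _ ⟨D j, Or.inr ⟨j, rfl⟩, hDan j _, rfl⟩
      have h4 := (isAlgebraic_algebraMap (A := ℂ) (⟨_, hmem⟩ : IntermediateField.adjoin ℚ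
          (Pool.Agent.TH345.ET.vals A' (Pool.Agent.TH345.ET.ep τ)))).mul h3
      have h5 : (m.prod fun j k => Pool.Agent.TH345.ET.bv (b j) (fun _ => 1) τ ^ k) =
          (∏ j ∈ m.support, ((D j (edge τ))⁻¹) ^ (m j))⁻¹ *
            m.prod fun j k => ((D j (edge τ))⁻¹ *
              Complex.exp (Pool.Agent.TH339.MP.bl (b j) τ)) ^ k := by
        rw [hR, inv_mul_cancel_left₀ hR0]
      rw [h5]
      exact h4
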